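import Pool.Agent.Run7.h71.CD.Stm

/-! Pieces LFT, TK, RING of helper71's project CD -/

set_option autoImplicit false

namespace Run7.h415.CD

open Set Filter Topology
open scoped ContDiff
open Pool.Agent.Run7.h71.CD

lemma phi_smooth : ContDiffOn ℝ ∞ (fun X : E3 => ((X 0 / X 2, X 1 / X 2) : ℝ × ℝ)) {X | 0 < X 2} := by
  intro X hX
  have hX' : X 2 ≠ 0 := ne_of_gt hX
  have h : ∀ i : Fin 3, ContDiffAt ℝ ∞ (fun X : E3 => X i) X := fun i => contDiffAt_apply ℝ ℝ i X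
  exact (((h 0).div (h 2) hX').prodMk ((h 1).div (h 2) hX')).contDiffWithinAt

lemma half_open : IsOpen {X : E3 | 0 < X 2} := isOpen_lt continuous_const (continuous_apply 2)

lemma cone_open {U : Set (ℝ × ℝ)} (hU : IsOpen U) : IsOpen (cone U) :=
  phi_smooth.continuousOn.isOpen_inter_preimage half_open hU

lemma lft_smooth {U : Set (ℝ × ℝ)} {F : ℝ × ℝ → ℝ} (hF : ContDiffOn ℝ ∞ F U) :
    ContDiffOn ℝ ∞ (lft F) (cone U) :=
  hF.comp (phi_smooth.mono fun _ hX => hX.1) fun _ hX => hX.2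

lemma lft_homog {U : Set (ℝ × ℝ)} {F : ℝ × ℝ → ℝ} {X : E3} (hX : X ∈ cone U) {r : ℝ} (hr : 0 < r) :
    r • X ∈ cone U ∧ lft F (r • X) = lft F X := by
  have h0 : (r • X) 0 / (r • X) 2 = X 0 / X 2 := by
    simp only [Pi.smul_apply, smul_eq_mul]
    exact mul_div_mul_left _ _ hr.ne'
  have h1 : (r • X) 1 / (r • X) 2 = X 1 / X 2 := by
    simp only [Pi.smul_apply, smul_eq_mul]
    exact mul_div_mul_left _ _ hr.ne'
  refine ⟨⟨?_, ?_⟩, ?_⟩
  · simpa using mul_pos hr hX.1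
  · rw [h0, h1]; exact hX.2
  · unfold lft; rw [h0, h1]

lemma hom_mem {U : Set (ℝ × ℝ)} {F : ℝ × ℝ → ℝ} {x : ℝ × ℝ} (hx : x ∈ U) :
    hom x ∈ cone U ∧ lft F (hom x) = F x := by
  refine ⟨⟨?_, ?_⟩, ?_⟩
  · simp [hom]
  · simpa [hom] using hx
  · simp [hom, lft]

lemma euler {U : Set (ℝ × ℝ)} {F : ℝ × ℝ → ℝ} (hU : IsOpen U) (hF : ContDiffOn ℝ ∞ F U) {X : E3}
    (hX : X ∈ cone U) : fderiv ℝ (lft F) X X = 0 := by
  have hd : DifferentiableAt ℝ (lft F) X :=
    ((lft_smooth hF).contDiffAt ((cone_open hU).mem_nhds hX)).differentiableAt (by simp)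
  rw [← hd.lineDeriv_eq_fderiv]
  unfold lineDeriv
  have h1 : (fun t : ℝ => lft F (X + t • X)) =ᶠ[𝓝 0] fun _ => lft F X := by
    have h2 : ∀ᶠ t : ℝ in 𝓝 0, -1 < t := eventually_gt_nhds (by norm_num)
    filter_upwards [h2] with t ht
    have h3 : X + t • X = (1 + t) • X := by rw [add_smul, one_smul]
    rw [h3]
    exact (lft_homog hX (by linarith)).2
  rw [h1.deriv_eq]
  simp

lemma dir {U : Set (ℝ × ℝ)} {F : ℝ × ℝ → ℝ} (hU : IsOpen U) (hF : ContDiffOn ℝ ∞ F U) {x : ℝ × ℝ}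
    (hx : x ∈ U) (v : ℝ × ℝ) : fderiv ℝ (lft F) (hom x) ![v.1, v.2, 0] = fderiv ℝ F x v := by
  have hd : DifferentiableAt ℝ (lft F) (hom x) :=
    ((lft_smooth hF).contDiffAt ((cone_open hU).mem_nhds (hom_mem (F := F) hx).1)).differentiableAt
      (by simp)
  have hd' : DifferentiableAt ℝ F x := (hF.contDiffAt (hU.mem_nhds hx)).differentiableAt (by simp)
  rw [← hd.lineDeriv_eq_fderiv, ← hd'.lineDeriv_eq_fderiv]
  unfold lineDeriv
  congr 1
  funext t
  unfold lft hom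
  congr 1
  ext <;> simp

lemma cone_conn {U : Set (ℝ × ℝ)} (hU : IsConnected U) : IsConnected (cone U) := by
  have h1 : IsConnected (U ×ˢ Set.Ioi (0 : ℝ)) := hU.prod isConnected_Ioi
  have h2 : cone U = (fun z : (ℝ × ℝ) × ℝ => (![z.2 * z.1.1, z.2 * z.1.2, z.2] : E3)) ''
      (U ×ˢ Set.Ioi (0 : ℝ)) := by
    ext X
    constructor
    · intro hX
      refine ⟨((X 0 / X 2, X 1 / X 2), X 2), ⟨hX.2, hX.1⟩, ?_⟩
      have hX' : X 2 ≠ 0 := ne_of_gt hX.1
      ext i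
      fin_cases i
      · simp; field_simp
      · simp; field_simp
      · simp
    · rintro ⟨⟨x, r⟩, ⟨hx, hr⟩, rfl⟩
      have hr' : (0 : ℝ) < r := hr
      refine ⟨?_, ?_⟩
      · simpa using hr'
      · have e1 : r * x.1 / r = x.1 := by field_simp
        have e2 : r * x.2 / r = x.2 := by field_simp
        simp only [Matrix.cons_val_zero, Matrix.cons_val_one, Matrix.cons_val]
        rw [e1, e2]
        exact hx
  rw [h2]
  refine h1.image _ (Continuous.continuousOn ?_)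
  refine continuous_pi fun i => ?_
  fin_cases i
  · simp; fun_prop
  · simp; fun_prop
  · simp; fun_prop

/-- **Piece LFT** -/
theorem LFT : S_LFT := fun _ _ hU hF =>
  ⟨cone_open hU, lft_smooth hF, fun _ hX _ hr => lft_homog hX hr, fun _ hx => hom_mem hx,
    fun _ hX => euler hU hF hX, fun _ hx v => dir hU hF hx v, cone_conn⟩

end Run7.h415.CD
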