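import Pool.Agent.Run7.h415.CD.TK

/-! Piece RING of helper71's project CD -/

set_option autoImplicit false

namespace Run7.h415.CD

open Set Filter Topology
open scoped ContDiff
open Pool.Agent.Run7.h71.CD

/-- a smooth representative -/
noncomputable def rep {O : Set E3} (f : Sm O) : E3 → ℝ := Classical.choose f.2

lemma rep_smooth {O : Set E3} (f : Sm O) : ContDiffOn ℝ ∞ (rep f) O := (Classical.choose_spec f.2).1

lemma rep_eq {O : Set E3} (f : Sm O) (x : O) : f.1 x = rep f x := (Classical.choose_spec f.2).2 x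

/-- the partial derivative -/
noncomputable def D0 {O : Set E3} (hO : IsOpen O) (i : Fin 3) (f : Sm O) : Sm O :=
  mk (fun x => fderiv ℝ (rep f) x (Pi.single i 1)) (fd_smooth hO (rep_smooth f) _)

lemma D0_eq {O : Set E3} (hO : IsOpen O) (i : Fin 3) (f : Sm O) (g : E3 → ℝ)
    (hg : ∀ x : O, f.1 x = g x) (x : O) : (D0 hO i f).1 x = fderiv ℝ g x (Pi.single i 1) := by
  have h1 : rep f =ᶠ[𝓝 (x : E3)] g := by
    filter_upwards [hO.mem_nhds x.2] with y hy
    rw [← rep_eq f ⟨y, hy⟩, hg ⟨y, hy⟩]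
  have h2 : (D0 hO i f).1 x = fderiv ℝ (rep f) x (Pi.single i 1) := rfl
  rw [h2, h1.fderiv_eq]

lemma rep_diff {O : Set E3} (hO : IsOpen O) (f : Sm O) (x : O) : DifferentiableAt ℝ (rep f) x :=
  ((rep_smooth f).contDiffAt (hO.mem_nhds x.2)).differentiableAt (by simp)

/-- the partial derivative as a linear map -/
noncomputable def D1 {O : Set E3} (hO : IsOpen O) (i : Fin 3) : Sm O →ₗ[ℝ] Sm O where
  toFun := D0 hO i
  map_add' f g := by
    apply Sm.ext'
    intro x
    have h1 := D0_eq hO i (f + g) (fun y => rep f y + rep g y) (fun y => by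
      rw [← rep_eq f y, ← rep_eq g y]; rfl) x
    have h2 : (D0 hO i f + D0 hO i g).1 x = (D0 hO i f).1 x + (D0 hO i g).1 x := rfl
    rw [h1, h2, D0_eq hO i f (rep f) (rep_eq f) x, D0_eq hO i g (rep g) (rep_eq g) x,
      fderiv_fun_add (rep_diff hO f x) (rep_diff hO g x)]
    rfl
  map_smul' r f := by
    apply Sm.ext'
    intro x
    have h1 := D0_eq hO i (r • f) (fun y => r * rep f y) (fun y => by
      rw [← rep_eq f y]; rfl) x
    have h2 : ((RingHom.id ℝ) r • D0 hO i f).1 x = r * (D0 hO i f).1 x := rfl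
    rw [h1, h2, D0_eq hO i f (rep f) (rep_eq f) x, fderiv_const_mul (rep_diff hO f x)]
    rfl

/-- the partial derivative as a derivation -/
noncomputable def D2 {O : Set E3} (hO : IsOpen O) (i : Fin 3) : Derivation ℝ (Sm O) (Sm O) :=
  Derivation.mk' (D1 hO i) fun f g => by
    apply Sm.ext'
    intro x
    have h1 := D0_eq hO i (f * g) (fun y => rep f y * rep g y) (fun y => by
      rw [← rep_eq f y, ← rep_eq g y]; rfl) x
    have h2 : (f • D1 hO i g + g • D1 hO i f).1 x =
      f.1 x * (D0 hO i g).1 x + g.1 x * (D0 hO i f).1 x := rfl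
    have h3 : (D1 hO i (f * g)).1 x = (D0 hO i (f * g)).1 x := rfl
    rw [h3, h1, h2, D0_eq hO i f (rep f) (rep_eq f) x, D0_eq hO i g (rep g) (rep_eq g) x,
      fderiv_fun_mul (rep_diff hO f x) (rep_diff hO g x), rep_eq f x, rep_eq g x]
    rfl

/-- **Piece RING** -/
theorem RING : S_RING := by
  intro O hO
  refine ⟨D2 hO, ⟨fun i g hg x => D0_eq hO i (mk g hg) g (fun _ => rfl) x, fun i j f => ?_⟩⟩
  apply Sm.ext'
  intro x
  have h1 : ∀ i j, (D2 hO i (D2 hO j f)).1 x =
      fderiv ℝ (fun z => fderiv ℝ (rep f) z (Pi.single j 1)) x (Pi.single i 1) := fun i j =>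
    D0_eq hO i (D0 hO j f) _ (fun _ => rfl) x
  rw [h1, h1]
  exact fd_symm hO (rep_smooth f) x.2 _ _

end Run7.h415.CD
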