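import Pool.Agent.Run7.h71.CD.Stm

/-! Piece TK of helper71's project CD -/

set_option autoImplicit false

namespace Run7.h415.CD

open Set Filter Topology
open scoped ContDiff
open Pool.Agent.Run7.h71.CD

lemma fd_smooth {E : Type*} [NormedAddCommGroup E] [NormedSpace ℝ E] {W : Set E} {Φ : E → ℝ}
    (hW : IsOpen W) (hΦ : ContDiffOn ℝ ∞ Φ W) (v : E) :
    ContDiffOn ℝ ∞ (fun z => fderiv ℝ Φ z v) W :=
  (hΦ.fderiv_of_isOpen hW (m := ∞) (by simp)).clm_apply contDiffOn_const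

lemma fd_symm {E : Type*} [NormedAddCommGroup E] [NormedSpace ℝ E] {W : Set E} {Φ : E → ℝ}
    (hW : IsOpen W) (hΦ : ContDiffOn ℝ ∞ Φ W) {z : E} (hz : z ∈ W) (u v : E) :
    fderiv ℝ (fun z => fderiv ℝ Φ z u) z v = fderiv ℝ (fun z => fderiv ℝ Φ z v) z u := by
  have h1 : ContDiffAt ℝ ∞ Φ z := hΦ.contDiffAt (hW.mem_nhds hz)
  have h2 : IsSymmSndFDerivAt ℝ Φ z := h1.isSymmSndFDerivAt (by
    rw [minSmoothness_of_isRCLikeNormedField]
    exact ENat.LEInfty.out)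
  have h3 : DifferentiableAt ℝ (fderiv ℝ Φ) z :=
    (h1.fderiv_right (m := ∞) (by simp)).differentiableAt (by simp)
  rw [fderiv_clm_apply h3 (differentiableAt_const _), fderiv_clm_apply h3 (differentiableAt_const _)]
  simp
  exact h2 v u

lemma tk : ∀ (k : ℕ) (O : Set E3) (W : Set (E3 × ℝ)) (Φ : E3 × ℝ → ℝ), IsOpen O → IsOpen W →
  (∀ X ∈ O, (X, (0 : ℝ)) ∈ W) → ContDiffOn ℝ ∞ Φ W →
    ContDiffOn ℝ ∞ (fun X => iteratedDeriv k (fun s : ℝ => Φ (X, s)) 0) O ∧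
    ∀ X ∈ O, ∀ V : E3, fderiv ℝ (fun X => iteratedDeriv k (fun s : ℝ => Φ (X, s)) 0) X V =
      iteratedDeriv k (fun s : ℝ => fderiv ℝ Φ (X, s) (V, 0)) 0 := by
  intro k
  induction k with
  | zero =>
    intro O W Φ hO hW hOW hΦ
    simp only [iteratedDeriv_zero]
    have h1 : ContDiff ℝ ∞ (fun X : E3 => ((X, (0 : ℝ)) : E3 × ℝ)) := contDiff_id.prodMk contDiff_const
    refine ⟨hΦ.comp h1.contDiffOn hOW, fun X hX V => ?_⟩
    have h2 : DifferentiableAt ℝ Φ (X, 0) :=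
      (hΦ.contDiffAt (hW.mem_nhds (hOW X hX))).differentiableAt (by simp)
    have h3 : HasFDerivAt (fun X : E3 => ((X, (0 : ℝ)) : E3 × ℝ))
        ((ContinuousLinearMap.id ℝ E3).prod 0) X := (hasFDerivAt_id X).prodMk (hasFDerivAt_const _ _)
    have h4 : HasFDerivAt (fun X : E3 => Φ (X, 0))
        ((fderiv ℝ Φ (X, 0)).comp ((ContinuousLinearMap.id ℝ E3).prod 0)) X :=
      HasFDerivAt.comp X h2.hasFDerivAt h3
    rw [h4.fderiv]
    simp
  | succ k ih =>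
    intro O W Φ hO hW hOW hΦ
    obtain ⟨ih1, ih2⟩ := ih O W (fun z => fderiv ℝ Φ z (0, 1)) hO hW hOW (fd_smooth hW hΦ _)
    -- for points of `O` the parameter `s` stays in `W` near `0`
    have hs : ∀ X ∈ O, ∀ᶠ s : ℝ in 𝓝 0, (X, s) ∈ W := by
      intro X hX
      have h1 : Continuous (fun s : ℝ => ((X, s) : E3 × ℝ)) := by fun_prop
      exact h1.continuousAt.eventually_mem (hW.mem_nhds (hOW X hX))
    have hder : ∀ (Ψ : E3 × ℝ → ℝ), ContDiffOn ℝ ∞ Ψ W → ∀ X ∈ O, ∀ᶠ s : ℝ in 𝓝 0,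
        deriv (fun s => Ψ (X, s)) s = fderiv ℝ Ψ (X, s) (0, 1) := by
      intro Ψ hΨ X hX
      filter_upwards [hs X hX] with s hs
      have h2 : DifferentiableAt ℝ Ψ (X, s) :=
        (hΨ.contDiffAt (hW.mem_nhds hs)).differentiableAt (by simp)
      have h3 : HasDerivAt (fun s : ℝ => ((X, s) : E3 × ℝ)) (0, 1) s :=
        (hasDerivAt_const s X).prodMk (hasDerivAt_id s)
      exact (h2.hasFDerivAt.comp_hasDerivAt s h3).deriv
    have hiter : ∀ (Ψ : E3 × ℝ → ℝ), ContDiffOn ℝ ∞ Ψ W → ∀ X ∈ O,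
        iteratedDeriv (k + 1) (fun s : ℝ => Ψ (X, s)) 0 =
          iteratedDeriv k (fun s : ℝ => fderiv ℝ Ψ (X, s) (0, 1)) 0 := by
      intro Ψ hΨ X hX
      rw [iteratedDeriv_succ']
      exact Filter.EventuallyEq.iteratedDeriv_eq k (hder Ψ hΨ X hX)
    refine ⟨ih1.congr fun X hX => hiter Φ hΦ X hX, fun X hX V => ?_⟩
    have h1 : (fun X => iteratedDeriv (k + 1) (fun s : ℝ => Φ (X, s)) 0) =ᶠ[𝓝 X]
        fun X => iteratedDeriv k (fun s : ℝ => fderiv ℝ Φ (X, s) (0, 1)) 0 := by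
      filter_upwards [hO.mem_nhds hX] with Y hY
      exact hiter Φ hΦ Y hY
    rw [h1.fderiv_eq, ih2 X hX V, hiter (fun z => fderiv ℝ Φ z (V, 0)) (fd_smooth hW hΦ _) X hX]
    refine Filter.EventuallyEq.iteratedDeriv_eq k ?_
    filter_upwards [hs X hX] with s hs
    exact fd_symm hW hΦ hs _ _

/-- **Piece TK** -/
theorem TK : S_TK := fun O W Φ hO hW hOW hΦ k => tk k O W Φ hO hW hOW hΦ

end Run7.h415.CD
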